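import Pool.Agent.H4.Magic.Defs

/-!
# CLOSED: valid configurations are closed under the transitions

* `path j`: `j = r+K+1` gives `full 0` (valid: `VW` by `y = 0`); `j = r` under `b` gives `grow (2^i)`, `i ≤ K`, or `path (r+K+1)`;
  `j = r+1+t`, `t ∈ P`, under `b`: `grow (2^(t+1)+1)`, `t < K` (valid with `s = 0`; `2^(t+1)+1 < 2^(K+1)`); otherwise `path (j+1)`.
* `grow y`, `y < 2^K`: if `y / 2^s = 2^(t+1)+1` then `(2y+x) / 2^(s+1) = 2^(t+1)+1` (`x ≤ 1`). If `y = 2^j` with `i ≤ j` (so `j < K`):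
  `x = 0`: `2^(j+1)`; `x = 1`: `2^(j+1)+1`, gap type with `t = j ∈ P` (by `p.hPi`), `s = 0`.
* `grow y`, `2^K ≤ y < 2^(K+1)`: `(2y+1) % 2^K` is odd (`K ≥ 1`). `(2y) % 2^K`: if `y = 2^j` then `j = K` and it is `0`;
  if `y / 2^s = 2^(t+1)+1` then `t+1+s = K`, `y = 2^K + 2^s + v` with `v < 2^s`, `s = K-1-t`; if `t = 0` then `0 ∈ P`, fine; if `t ≥ 1` then
  `(2y) % 2^K = 2^(K-t) + 2v`, fine.
* `full y`: `(2y+1) % 2^K` is odd and `2^i` (`i ≥ 1`, `i < K`) is even, so the `|||` is odd, and `< 2^K`.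
-/

set_option autoImplicit false

namespace Pool.H4.Magic

theorem closed_path (p : Par) (j : ℕ) (hc : j ≤ p.r + p.K + 1) (x : Fin 2) :
    Valid p (next p (.path j) x) := by
  have hK := p.hK
  simp only [next]
  split_ifs with h1 h2 h3 h4
  · exact ⟨by positivity, Or.inr (Or.inr (Or.inl rfl))⟩
  · exact ⟨Nat.pow_lt_pow_right (by norm_num) (by omega), Or.inr ⟨p.i, le_rfl, rfl⟩⟩
  · exact le_refl (p.r + p.K + 1)
  · have ht := p.hP _ h4.2.2
    refine ⟨?_, Or.inl ⟨_, h4.2.2, 0, by rw [pow_zero, Nat.div_one]⟩⟩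
    have e1 : 2 ^ (j - (p.r + 1) + 1) ≤ 2 ^ p.K := Nat.pow_le_pow_right (by norm_num) (by omega)
    have e2 : 2 ^ 1 ≤ 2 ^ p.K := Nat.pow_le_pow_right (by norm_num) hK
    rw [pow_succ 2 p.K]
    omega
  · change j + 1 ≤ p.r + p.K + 1
    omega

theorem closed_grow_lt (p : Par) (y : ℕ) (hy : y < 2 ^ p.K) (hv : VG p y) (x : Fin 2) :
    Valid p (.grow (2 * y + x.val)) := by
  have hx := x.isLt
  refine ⟨by rw [pow_succ]; omega, ?_⟩
  rcases hv with ⟨t, ht, s, hs⟩ | ⟨j, hj, rfl⟩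
  · refine Or.inl ⟨t, ht, s + 1, ?_⟩
    have h1 : (2 * y + x.val) / 2 = y := by omega
    rw [pow_succ, mul_comm (2 ^ s) 2, ← Nat.div_div_eq_div_mul, h1, hs]
  · have hjK : j < p.K := (Nat.pow_lt_pow_iff_right (by norm_num : 1 < 2)).1 hy
    have h2 : x.val = 0 ∨ x.val = 1 := by omega
    rcases h2 with h2 | h2
    · refine Or.inr ⟨j + 1, by omega, ?_⟩
      rw [h2, pow_succ]; ring
    · refine Or.inl ⟨j, p.hPi j hj hjK, 0, ?_⟩
      rw [h2, pow_succ, pow_zero, Nat.div_one]; ring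

theorem closed_mod_odd (K m : ℕ) (hK : 1 ≤ K) : (2 * m + 1) % 2 ^ K % 2 = 1 := by
  obtain ⟨k, rfl⟩ : ∃ k, K = k + 1 := ⟨K - 1, by omega⟩
  rw [Nat.mod_mod_of_dvd _ ⟨2 ^ k, by rw [pow_succ]; ring⟩]
  omega

theorem closed_grow_ge (p : Par) (y : ℕ) (hy : 2 ^ p.K ≤ y) (hy2 : y < 2 ^ (p.K + 1))
    (hv : VG p y) (x : Fin 2) : Valid p (.full ((2 * y + x.val) % 2 ^ p.K)) := by
  have hK := p.hK
  have hx := x.isLt
  refine ⟨Nat.mod_lt _ (by positivity), ?_⟩
  have h2 : x.val = 0 ∨ x.val = 1 := by omega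
  rcases h2 with h2 | h2
  · rw [h2, add_zero]
    rcases hv with ⟨t, ht, s, hs⟩ | ⟨j, hj, rfl⟩
    · by_cases h0 : t = 0
      · subst h0; exact Or.inl ht
      have htK := p.hP t ht
      have hdm := Nat.div_add_mod y (2 ^ s)
      rw [hs] at hdm
      set v := y % 2 ^ s with hvdef
      have hvlt : v < 2 ^ s := Nat.mod_lt _ (by positivity)
      have hy3 : y = 2 ^ (t + 1 + s) + 2 ^ s + v := by
        rw [← hdm, pow_add]; ring
      -- `t + 1 + s = K`
      have hKe : t + 1 + s = p.K := by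
        have e1 : 2 ^ (t + 1 + s) < 2 ^ (p.K + 1) := by omega
        have e2 := (Nat.pow_lt_pow_iff_right (by norm_num : 1 < 2)).1 e1
        have e3 : y < 2 ^ (t + 1 + s + 1) := by
          rw [pow_succ]
          have : 2 ^ (s + 1) ≤ 2 ^ (t + 1 + s) := Nat.pow_le_pow_right (by norm_num) (by omega)
          rw [pow_succ] at this
          omega
        have e4 : 2 ^ p.K < 2 ^ (t + 1 + s + 1) := by omega
        have e5 := (Nat.pow_lt_pow_iff_right (by norm_num : 1 < 2)).1 e4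
        omega
      refine Or.inr (Or.inr (Or.inr ⟨t, ht, v, ?_, ?_⟩))
      · have : p.K - 1 - t = s := by omega
        rw [this]; exact hvlt
      · have e1 : p.K - t = s + 1 := by omega
        rw [hy3, hKe, e1]
        have e2 : 2 * (2 ^ p.K + 2 ^ s + v) = (2 ^ (s + 1) + 2 * v) + 2 ^ p.K * 2 := by
          rw [pow_succ]; ring
        rw [e2, Nat.add_mul_mod_self_left]
        apply Nat.mod_eq_of_lt
        have e3 : 2 ^ (s + 2) ≤ 2 ^ p.K := Nat.pow_le_pow_right (by norm_num) (by omega)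
        rw [pow_succ, pow_succ] at e3
        rw [pow_succ]
        omega
    · have e1 : j = p.K := by
        have e2 := (Nat.pow_lt_pow_iff_right (by norm_num : 1 < 2)).1 hy2
        have e3 := (Nat.pow_le_pow_iff_right (by norm_num : 1 < 2)).1 hy
        omega
      subst e1
      refine Or.inr (Or.inr (Or.inl ?_))
      rw [Nat.mul_mod_left]
  · rw [h2]
    exact Or.inr (Or.inl (closed_mod_odd _ _ hK))

theorem closed_full (p : Par) (y : ℕ) (x : Fin 2) : Valid p (next p (.full y) x) := by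
  have hK := p.hK
  have hi := p.hi
  have ho := closed_mod_odd p.K y hK
  have hlt : (2 * y + 1) % 2 ^ p.K < 2 ^ p.K := Nat.mod_lt _ (by positivity)
  simp only [next]
  refine ⟨?_, Or.inr (Or.inl ?_)⟩
  · apply Nat.or_lt_two_pow hlt
    split_ifs with h
    · exact Nat.pow_lt_pow_right (by norm_num) h.2
    · positivity
  · have h1 : ((2 * y + 1) % 2 ^ p.K).testBit 0 = true := by
      rw [Nat.testBit_zero]; simp [ho]
    have h2 : (((2 * y + 1) % 2 ^ p.K) ||| (if x = 1 ∧ p.i < p.K then 2 ^ p.i else 0)).testBit 0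
        = true := by
      rw [Nat.testBit_or, h1, Bool.true_or]
    rw [Nat.testBit_zero] at h2
    simpa using h2

theorem valid_next (p : Par) (c : Cfg) (hc : Valid p c) (x : Fin 2) : Valid p (next p c x) := by
  cases c with
  | path j => exact closed_path p j hc x
  | grow y =>
    obtain ⟨hy, hv⟩ := hc
    by_cases h : y < 2 ^ p.K
    · have := closed_grow_lt p y h hv x
      simpa only [next, if_pos h] using this
    · have := closed_grow_ge p y (by omega) hy hv x
      simpa only [next, if_neg h] using this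
  | full y => exact closed_full p y x

end Pool.H4.Magic
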