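import Pool.Agent.H4.Magic.Defs

/-!
# COUNTG: the number of valid growing registers

`{y < 2^(K+1) : VG y}` is the disjoint union of the powers `2^j`, `i ≤ j ≤ K` (`K+1-i` of them) and, for `t ∈ P` and `s < K - t`, of the intervals
`{y : y / 2^s = 2^(t+1)+1} = [(2^(t+1)+1) 2^s, (2^(t+1)+2) 2^s)` of length `2^s` (`y < 2^(K+1)` iff `t+1+s ≤ K`).
Disjointness: `y` in the `(t,s)` interval has `2^(t+1+s) ≤ y < 2^(t+2+s)` and `2^s ≤ y - 2^(t+1+s) < 2^(s+1)`, so `t+1+s = log2 y` and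
`s = log2 (y - 2^(log2 y))`; and `y` is not a power of two.  `∑_{s < K-t} 2^s = 2^(K-t) - 1`.
-/

set_option autoImplicit false

namespace Pool.H4.Magic

open Classical in
theorem countG (p : Par) :
    ((Finset.range (2 ^ (p.K + 1))).filter (fun y => VG p y)).card
      = (p.K + 1 - p.i) + ∑ t ∈ p.P, (2 ^ (p.K - t) - 1) := by
  sorry

end Pool.H4.Magic
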