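import Pool.Agent.H4.Magic.Defs

/-!
# COUNTW: the number of valid full registers

Case `0 ∈ P`: all `2^K`.  Case `0 ∉ P`: `{y < 2^K : VW y}` is the disjoint union of the odd numbers (`2^(K-1)`, `K ≥ 1`), `{0}` and, for `t ∈ P`
(`1 ≤ t ≤ K-1`), of `{2^(K-t) + 2v : v < 2^(K-1-t)}` (`2^(K-1-t)` elements, even, with top bit `K-t`, so disjoint for different `t`, all `< 2^K`).
-/

set_option autoImplicit false

namespace Pool.H4.Magic

open Classical in
theorem countW0 (p : Par) (h : 0 ∈ p.P) :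
    ((Finset.range (2 ^ p.K)).filter (fun y => VW p y)).card = 2 ^ p.K := by
  sorry

open Classical in
theorem countW1 (p : Par) (h : 0 ∉ p.P) :
    ((Finset.range (2 ^ p.K)).filter (fun y => VW p y)).card
      = 2 ^ (p.K - 1) + 1 + ∑ t ∈ p.P, 2 ^ (p.K - 1 - t) := by
  sorry

end Pool.H4.Magic
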