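import Mathlib

/-!
# MP_c3e474_lc (binary magic numbers): the automaton and its configurations

Paper proof: proofs id 188.  Parameters `r`, `K ≥ 1`, `P ⊆ [0,K-1]`, `i ∈ [1,K+1]` with
`t ∈ P` whenever `i ≤ t < K`.  The states are `0, …, M` and `z = M+1`, where `M = r+K+1`
(so `n = r+K+3` states); start `0`, unique accepting state `M-1 = r+K`.
The letter `0 : Fin 2` is `a`, the letter `1 : Fin 2` is `b`.
-/

set_option autoImplicit false

namespace Pool.H4.Magic

/-- The parameters of the construction. -/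
structure Par where
  r : ℕ
  K : ℕ
  P : Finset ℕ
  i : ℕ
  hK : 1 ≤ K
  hP : ∀ t ∈ P, t < K
  hi : 1 ≤ i
  hiK : i ≤ K + 1
  hPi : ∀ t, i ≤ t → t < K → t ∈ P

/-- Transition relation on natural numbers (states `0, …, r+K+2`). -/
def tr (p : Par) (q : ℕ) (x : Fin 2) (q' : ℕ) : Prop :=
  if q = p.r + p.K + 2 then (q' = p.r + p.K + 2 ∨ (x = 1 ∧ q' = p.r + 1))
  else if q = p.r + p.K + 1 then (q' = p.r + p.K + 1 ∨ q' = p.r ∨ q' = p.r + p.K + 2)
  else if x = 1 ∧ q = p.r then
    (if p.i ≤ p.K then (q' = p.r + p.K + 2 ∨ q' = p.r + 1 + p.i) else q' = p.r + p.K + 1)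
  else (q' = q + 1 ∨
    (x = 1 ∧ p.r + 1 ≤ q ∧ q - (p.r + 1) ∈ p.P ∧ (q' = p.r + 1 ∨ q' = p.r + p.K + 2)))

/-- The automaton. -/
def aut (p : Par) : NFA (Fin 2) (Fin (p.r + p.K + 3)) where
  step q x := {q' | tr p q.val x q'.val}
  start := {0}
  accept := {q | q.val = p.r + p.K}

/-- Configurations. -/
inductive Cfg
  | path (j : ℕ)
  | grow (y : ℕ)
  | full (y : ℕ)
  deriving DecidableEq

/-- The set of states described by a configuration. -/
def memb (p : Par) : Cfg → ℕ → Prop
  | .path j, q => q = j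
  | .grow y, q => q = p.r + p.K + 2 ∨ (p.r + 1 ≤ q ∧ y.testBit (q - (p.r + 1)) = true)
  | .full y, q => q = p.r + p.K + 2 ∨ q = p.r + p.K + 1 ∨ q = p.r ∨
      (p.r + 1 ≤ q ∧ y.testBit (q - (p.r + 1)) = true)

/-- The semantics of a configuration: a set of states of the automaton. -/
def sem (p : Par) (c : Cfg) : Set (Fin (p.r + p.K + 3)) := {q | memb p c q.val}

/-- The transition function on configurations. -/
def next (p : Par) : Cfg → Fin 2 → Cfg
  | .path j, x =>
      if j = p.r + p.K + 1 then .full 0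
      else if x = 1 ∧ j = p.r then (if p.i ≤ p.K then .grow (2 ^ p.i) else .path (p.r + p.K + 1))
      else if x = 1 ∧ p.r + 1 ≤ j ∧ j - (p.r + 1) ∈ p.P then .grow (2 ^ (j - (p.r + 1) + 1) + 1)
      else .path (j + 1)
  | .grow y, x =>
      if y < 2 ^ p.K then .grow (2 * y + x.val) else .full ((2 * y + x.val) % 2 ^ p.K)
  | .full y, x =>
      .full (((2 * y + 1) % 2 ^ p.K) ||| (if x = 1 ∧ p.i < p.K then 2 ^ p.i else 0))

/-- Validity of the register of a growing configuration. -/
def VG (p : Par) (y : ℕ) : Prop :=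
  (∃ t ∈ p.P, ∃ s : ℕ, y / 2 ^ s = 2 ^ (t + 1) + 1) ∨ ∃ j, p.i ≤ j ∧ y = 2 ^ j

/-- Validity of the register of a full configuration. -/
def VW (p : Par) (y : ℕ) : Prop :=
  0 ∈ p.P ∨ y % 2 = 1 ∨ y = 0 ∨ ∃ t ∈ p.P, ∃ v, v < 2 ^ (p.K - 1 - t) ∧ y = 2 ^ (p.K - t) + 2 * v

/-- Valid (= reachable) configurations. -/
def Valid (p : Par) : Cfg → Prop
  | .path j => j ≤ p.r + p.K + 1
  | .grow y => y < 2 ^ (p.K + 1) ∧ VG p y
  | .full y => y < 2 ^ p.K ∧ VW p y

open Classical in
/-- The finite set of valid configurations. -/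
noncomputable def V (p : Par) : Finset Cfg :=
  ((Finset.range (p.r + p.K + 2)).image Cfg.path) ∪
  (((Finset.range (2 ^ (p.K + 1))).filter (fun y => VG p y)).image Cfg.grow ∪
   ((Finset.range (2 ^ p.K)).filter (fun y => VW p y)).image Cfg.full)

theorem mem_V (p : Par) (c : Cfg) : c ∈ V p ↔ Valid p c := by
  classical
  unfold V
  cases c with
  | path j => simp [Valid]; omega
  | grow y => simp [Valid]
  | full y => simp [Valid]

/-- Acceptance of a word from a configuration (in the deterministic automaton of configurations). -/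
def acc (p : Par) (c : Cfg) (w : List (Fin 2)) : Prop := memb p (w.foldl (next p) c) (p.r + p.K)

theorem acc_nil (p : Par) (c : Cfg) : acc p c [] ↔ memb p c (p.r + p.K) := Iff.rfl

theorem acc_cons (p : Par) (c : Cfg) (x : Fin 2) (w : List (Fin 2)) :
    acc p c (x :: w) ↔ acc p (next p c x) w := Iff.rfl

theorem acc_append (p : Par) (c : Cfg) (u w : List (Fin 2)) :
    acc p c (u ++ w) ↔ acc p (u.foldl (next p) c) w := by
  unfold acc
  rw [List.foldl_append]

end Pool.H4.Magic
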