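import Mathlib

/-!
# FOOL: the fooling set lemma for NFAs

If `x i ++ y i ∈ L` for all `i : Fin n` and, for `i < j`, `x i ++ y j ∉ L` or `x j ++ y i ∉ L`, then every NFA with
`m` states accepting `L` has `n ≤ m`.
Proof: for each `i` there is a state `q i` with `q i ∈ N.eval (x i)` from which `y i` is accepted
(`N.accepts` of `x i ++ y i`: `NFA.evalFrom_append`, and a state of `evalFrom S w` comes from a single state of `S`,
e.g. `NFA.mem_evalFrom_iff_exists_path` / `evalFrom` of a union).  If `q i = q j` with `i < j`, then both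
`x i ++ y j` and `x j ++ y i` are accepted; so `q` is injective and `n ≤ m`.
-/

set_option autoImplicit false

namespace Pool.H4.Magic

theorem fooling {n m : ℕ} (x y : Fin n → List (Fin 2)) (N : NFA (Fin 2) (Fin m))
    (h1 : ∀ i, x i ++ y i ∈ N.accepts)
    (h2 : ∀ i j, i < j → x i ++ y j ∉ N.accepts ∨ x j ++ y i ∉ N.accepts) : n ≤ m := by
  sorry

end Pool.H4.Magic
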