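import Pool.Agent.H4.Magic.Defs

/-!
# FOOLA: a fooling set of size `n = r+K+3`

`M = r+K+1`.  Pairs: `(a^j, a^(M-1-j))` for `0 ≤ j ≤ M-1`; `(a^M, a b a^(K-1))`; `(a^(M+1), b a^(K-1))`.
From `path 0`: `a^j` leads to `path j` (`j ≤ M`), `a^(M+1)` to `full 0`, and `a^(M+2)` to `full 1` (`(2*0+1) % 2^K = 1`).
* `j < j' ≤ M-1`: `a^j a^(M-1-j')` leads to `path (M-1-(j'-j))`, rejected.
* `(j, M)`, `j ≤ M-1`: the word `a^M a^(M-1-j)` may be accepted; use the other one: `a^j · a b a^(K-1)`: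
     `path (j+1)`, then `b`: if `j+1 < r`: `path (j+2)`, and `a^(K-1)` leads to `path (j+1+K) ≠ path (r+K)` as `j+1 < r`: rejected.
     `j+1 = r`: `grow (2^i)` or `path M`, then bit `0` (`a^(K-1)`) rejected.
     `j+1 = r+1+t`, `t ≤ K-1`: `t ∈ P`: `grow (2^(t+1)+1)`: bit 0 is 1: ACCEPTED!  In that case use the other word `a^M a^(M-1-j)`, `j = r+t`,
     `M-1-j = K-t`: from `path M`: `full 0` after one letter, and then `a^(K-t-1)`: it reads bit `K-1-(K-t-1) = t` of `full 0`: rejected (`K-t ≥ 1`).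
     `t ∉ P`: `path (r+2+t)` and `a^(K-1)`: reads bit 0: position `r+1`; rejected as `r+2+t ≠ r+1` (for `t = K-1`: `path M`; bit 0 is 0).
     So for `j ≥ r` (`j = r+t`, `0 ≤ t ≤ K`) always use `a^M a^(M-1-j)` (rejected; for `t = K` it is `a^M`, `path M`), for `j < r` use `a^(j+1) b a^(K-1)` (rejected).
* `(j, M+1)`: pairs `(a^j, a^(M-1-j))` and `(a^(M+1), b a^(K-1))`. The word `a^j b a^(K-1)`: `j < r`: `path (j+1)` then `a^(K-1)`:
     `path (j+K)`, rejected as `j < r`. `j = r`: `grow (2^i)` / `path M`: bit 0 is 0: rejected. `j = r+1+t`, `0 ≤ t ≤ K-1`, (`j ≤ M-1`): the other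
     word `a^(M+1) a^(M-1-j)`: `full 0`, then `a^(K-1-t)`, `K-1-t ≤ K-1`, reads bit `K-1-(K-1-t) = t` of `full 0`: rejected.
* `(M, M+1)`: `a^M · b a^(K-1)`: `path M -b-> full 0`, then `a^(K-1)` reads bit 0 of `full 0`: rejected.
* diagonal: `a^M · a b a^(K-1)`: `full 0`, `full (1 ||| ..)`, bit 0: accepted. `a^(M+1) · b a^(K-1)`: the same word, accepted.
(Reading lemma: for `m ≤ K-1`, `acc p c a^m ↔ memb p c (r+K-m)`; see INJ (1).  It may be proved here again.)
-/

set_option autoImplicit false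

namespace Pool.H4.Magic

/-- The first components. -/
def fx (p : Par) (j : Fin (p.r + p.K + 3)) : List (Fin 2) := List.replicate j.val 0

/-- The second components. -/
def fy (p : Par) (j : Fin (p.r + p.K + 3)) : List (Fin 2) :=
  if j.val = p.r + p.K + 1 then 0 :: 1 :: List.replicate (p.K - 1) 0
  else if j.val = p.r + p.K + 2 then 1 :: List.replicate (p.K - 1) 0
  else List.replicate (p.r + p.K - j.val) 0

theorem foolA_diag (p : Par) (j : Fin (p.r + p.K + 3)) : acc p (Cfg.path 0) (fx p j ++ fy p j) := by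
  sorry

theorem foolA_off (p : Par) (i j : Fin (p.r + p.K + 3)) (hij : i < j) :
    ¬ acc p (Cfg.path 0) (fx p i ++ fy p j) ∨ ¬ acc p (Cfg.path 0) (fx p j ++ fy p i) := by
  sorry

end Pool.H4.Magic
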