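import Mathlib

/-!
# GEN: counting the residuals of an NFA through a finite system of configurations

`sem` interprets configurations as sets of states, `next` is the transition function on configurations.
Proof: by induction on `w`, `A.evalFrom (sem c) w = sem (w.foldl next c)` and `w.foldl next c ∈ V` for `c ∈ V`
(`NFA.evalFrom` is a `foldl` of `stepSet`).  Hence `w ∈ A.accepts ↔ ∃ q ∈ A.accept, q ∈ sem (w.foldl next c0)`
(second conclusion), and the residual of `u` is `Lc (u.foldl next c0)` where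
`Lc c = {w | ∃ q ∈ A.accept, q ∈ sem (w.foldl next c)}`.  So the range of the residual map is `Lc '' V`
(`⊆` by closedness, `⊇` by reachability) and `Lc` is injective on `V`.
-/

set_option autoImplicit false

namespace Pool.H4.Magic

theorem accepts_iff {n : ℕ} (A : NFA (Fin 2) (Fin n)) {C : Type}
    (sem : C → Set (Fin n)) (next : C → Fin 2 → C) (c0 : C) (V : Finset C)
    (h0 : A.start = sem c0) (hc0 : c0 ∈ V)
    (hstep : ∀ c ∈ V, ∀ x, A.stepSet (sem c) x = sem (next c x))
    (hcl : ∀ c ∈ V, ∀ x, next c x ∈ V) (w : List (Fin 2)) :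
    w ∈ A.accepts ↔ ∃ q ∈ A.accept, q ∈ sem (w.foldl next c0) := by
  sorry

theorem card_residuals {n : ℕ} (A : NFA (Fin 2) (Fin n)) {C : Type}
    (sem : C → Set (Fin n)) (next : C → Fin 2 → C) (c0 : C) (V : Finset C)
    (h0 : A.start = sem c0) (hc0 : c0 ∈ V)
    (hstep : ∀ c ∈ V, ∀ x, A.stepSet (sem c) x = sem (next c x))
    (hcl : ∀ c ∈ V, ∀ x, next c x ∈ V)
    (hreach : ∀ c ∈ V, ∃ u : List (Fin 2), u.foldl next c0 = c)
    (hinj : ∀ c ∈ V, ∀ c' ∈ V,
      (∀ w : List (Fin 2), (∃ q ∈ A.accept, q ∈ sem (w.foldl next c)) ↔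
        (∃ q ∈ A.accept, q ∈ sem (w.foldl next c'))) → c = c') :
    Nat.card (Set.range (fun u : List (Fin 2) =>
      ({w : List (Fin 2) | u ++ w ∈ A.accepts} : Set (List (Fin 2))))) = V.card := by
  sorry

end Pool.H4.Magic
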