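import Pool.Agent.H4.Magic.Defs

/-!
# INJ: different valid configurations accept different languages

Here `acc p c w` is acceptance of `w` from `c`; `a^m = List.replicate m 0`.
(1) For every valid `c` and every `q` with `r ≤ q`, `q + 1 ≤ r+K`: `memb p (next p c 0) (q+1) ↔ memb p c q`
    (cases on `c`; for `grow`/`full` with `q ≥ r+1` it is `testBit (2y) (k+1) = testBit y k`, for `q = r` the bit 0 of the new register:
    `0` for `grow`, `1` for `full`).  Hence for `m ≤ K`: `acc p c a^m ↔ memb p c (r+K-m)`; and
    `acc p c a^(K+1) ↔ memb p (next p c 0) r ↔` (`c = path (r-1)` with `r ≥ 1`, or `c = path (r+K+1)`, or `c = grow y` with `2^K ≤ y`, or `c = full y`).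
(2) `m ≤ K-1` reads bit `K-1-m` of the register; `m = K` reads membership of `r` (true for `full y` and for `path r` only).
 - `full y`, `full y'` (`y, y' < 2^K`): all bits agree, so `y = y'`.
 - `full` vs `grow`, `full` vs `path j`, `j ≠ r`: `a^K`.   `full` vs `path r`: `a^(K+1)`.
 - `grow y`, `grow y'` (`< 2^(K+1)`): bits `< K` agree; bit `K` is read by `a^(K+1)` (for `grow`: accepted iff `2^K ≤ y`). So `y = y'`.
 - `path j` vs `grow y` (`0 < y < 2^(K+1)`; a valid `grow` has `y > 0`):
   * `j = r`: `a^K`.
   * `j = r+1+t`, `t ≤ K`: equal bits below `K` and equal `a^(K+1)` force `y = 2^t`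
     (for `t < K`: `y < 2^K` because `a^(K+1)` rejects `path j`; for `t = K`: `y ≥ 2^K` and `y % 2^K = 0`). Then the word `a^(K-t) b a^(K-1)`:
     from `path j`: `path (r+1+K)`, `full 0`, and `a^(K-1)` is rejected from `full 0`; from `grow (2^t)`: `grow (2^K)`, `full 1`
     (`(2^(K+1)+1) % 2^K = 1` as `K ≥ 1`), and `a^(K-1)` is accepted (bit `0`).
   * `j < r`: bits below `K` are all `0`, so `y % 2^K = 0`, `y = 2^K`; `a^(K+1)` accepts `grow (2^K)`, so `j = r-1`; word `a b a^(K-1)`:
     from `path (r-1)`: `path r`, then `grow (2^i)` or `path (r+K+1)`: bit `0` is `0` (`i ≥ 1`): rejected;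
     from `grow (2^K)`: `full 0`, `full (1 ||| 2^i or 0)`: bit `0` is `1`: accepted.
 - `path j` vs `path j'`, `j < j' ≤ r+K+1`: if `r < j' ≤ r+K`: the word `a^(r+K-j')` (`≤ K-1` letters) is accepted from `path j'` only.
   If `j' ≤ r`: the word `a^(r-j'+K)`: from `path j'` one reaches `path (r+K)`, from `path j` `path (r+K-(j'-j))`: accepted from `path j'` only.
   If `j' = r+K+1`: if `r < j` use bit: `a^(r+K-j)` is accepted from `path j` but not from `path (r+K+1)` (bits below `K` are `0`). If `j = r`: `a^K`.
   If `j < r`: `a^(K+1)` is accepted from `path (r+K+1)`, so `j = r-1`; then `a b a^(K-1)`: `path (r+K+1) -> full 0 -> full (1 ||| ..)`, accepted; `path (r-1)` rejects.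
-/

set_option autoImplicit false

namespace Pool.H4.Magic

theorem inj_np (p : Par) (j : ℕ) (x : Fin 2) : next p (.path j) x =
    if j = p.r + p.K + 1 then .full 0
      else if x = 1 ∧ j = p.r then (if p.i ≤ p.K then .grow (2 ^ p.i) else .path (p.r + p.K + 1))
      else if x = 1 ∧ p.r + 1 ≤ j ∧ j - (p.r + 1) ∈ p.P then .grow (2 ^ (j - (p.r + 1) + 1) + 1)
      else .path (j + 1) := rfl

theorem inj_ng (p : Par) (y : ℕ) (x : Fin 2) : next p (.grow y) x =
    if y < 2 ^ p.K then .grow (2 * y + x.val) else .full ((2 * y + x.val) % 2 ^ p.K) := rfl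

theorem inj_nf (p : Par) (y : ℕ) (x : Fin 2) : next p (.full y) x =
    .full (((2 * y + 1) % 2 ^ p.K) ||| (if x = 1 ∧ p.i < p.K then 2 ^ p.i else 0)) := rfl

theorem inj_np0 (p : Par) (j : ℕ) : next p (.path j) 0 =
    if j = p.r + p.K + 1 then .full 0 else .path (j + 1) := by
  rw [inj_np]
  split_ifs with h1 h2 h3 h4
  · rfl
  · exact absurd h2.1 (by decide)
  · exact absurd h2.1 (by decide)
  · exact absurd h4.1 (by decide)
  · rfl

theorem inj_ng0 (p : Par) (y : ℕ) : next p (.grow y) 0 =
    if y < 2 ^ p.K then .grow (2 * y) else .full ((2 * y) % 2 ^ p.K) := rfl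

theorem inj_nf0 (p : Par) (y : ℕ) : next p (.full y) 0 = .full ((2 * y + 1) % 2 ^ p.K) := by
  rw [inj_nf, if_neg (by rintro ⟨h1, -⟩; exact absurd h1 (by decide)), Nat.or_zero]

/-- size bounds for a configuration -/
def inj_Bd (p : Par) : Cfg → Prop
  | .path j => j ≤ p.r + p.K + 1
  | .grow y => y < 2 ^ (p.K + 1)
  | .full y => y < 2 ^ p.K

theorem inj_bd_of_valid {p : Par} {c : Cfg} (h : Valid p c) : inj_Bd p c := by
  cases c with
  | path j => exact h
  | grow y => exact h.1
  | full y => exact h.1

theorem inj_bd_next {p : Par} {c : Cfg} (h : inj_Bd p c) : inj_Bd p (next p c 0) := by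
  cases c with
  | path j =>
    have h0 : j ≤ p.r + p.K + 1 := h
    rw [inj_np0]
    split_ifs with h1
    · exact Nat.two_pow_pos _
    · show j + 1 ≤ p.r + p.K + 1
      omega
  | grow y =>
    rw [inj_ng0]
    split_ifs with h1
    · show 2 * y < 2 ^ (p.K + 1)
      rw [pow_succ]
      omega
    · exact Nat.mod_lt _ (Nat.two_pow_pos _)
  | full y =>
    rw [inj_nf0]
    exact Nat.mod_lt _ (Nat.two_pow_pos _)

theorem inj_bd_nextw {p : Par} {c : Cfg} (h : inj_Bd p c) (m : ℕ) :
    inj_Bd p ((List.replicate m (0 : Fin 2)).foldl (next p) c) := by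
  induction m generalizing c with
  | zero => exact h
  | succ m ih => exact ih (inj_bd_next h)

theorem inj_testBit_double (y k : ℕ) : (2 * y).testBit (k + 1) = y.testBit k := by
  rw [Nat.testBit_succ, Nat.mul_div_cancel_left _ (by norm_num)]

theorem inj_testBit_double_one (y k : ℕ) : (2 * y + 1).testBit (k + 1) = y.testBit k := by
  rw [Nat.testBit_succ]
  congr 1
  omega

theorem inj_step0 {p : Par} {c : Cfg} (hb : inj_Bd p c) {q : ℕ} (h1 : p.r ≤ q)
    (h2 : q + 1 ≤ p.r + p.K) : memb p (next p c 0) (q + 1) ↔ memb p c q := by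
  cases c with
  | path j =>
    rw [inj_np0]
    split_ifs with h3
    · simp only [memb, Nat.zero_testBit]
      constructor
      · rintro (h | h | h | ⟨-, h⟩)
        · omega
        · omega
        · omega
        · exact absurd h (by decide)
      · intro h; omega
    · simp only [memb]
      omega
  | grow y =>
    rw [inj_ng0]
    have hq : q + 1 - (p.r + 1) = q - p.r := by omega
    split_ifs with h3
    · simp only [memb, hq]
      rcases Nat.eq_or_lt_of_le h1 with h4 | h4
      · have h5 : q - p.r = 0 := by omega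
        rw [h5, Nat.testBit_zero]
        constructor
        · rintro (h | ⟨-, h⟩)
          · omega
          · simp at h
        · rintro (h | ⟨h, -⟩) <;> omega
      · have h5 : q - p.r = q - (p.r + 1) + 1 := by omega
        rw [h5, inj_testBit_double]
        constructor
        · rintro (h | ⟨-, h⟩)
          · omega
          · exact Or.inr ⟨h4, h⟩
        · rintro (h | ⟨-, h⟩)
          · omega
          · exact Or.inr ⟨by omega, h⟩
    · simp only [memb, hq, Nat.testBit_mod_two_pow]
      have h6 : q - p.r < p.K := by omega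
      simp only [h6, decide_true, Bool.true_and]
      rcases Nat.eq_or_lt_of_le h1 with h4 | h4
      · have h5 : q - p.r = 0 := by omega
        rw [h5, Nat.testBit_zero]
        constructor
        · rintro (h | h | h | ⟨-, h⟩)
          · omega
          · omega
          · omega
          · simp at h
        · rintro (h | ⟨h, -⟩) <;> omega
      · have h5 : q - p.r = q - (p.r + 1) + 1 := by omega
        rw [h5, inj_testBit_double]
        constructor
        · rintro (h | h | h | ⟨-, h⟩)
          · omega
          · omega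
          · omega
          · exact Or.inr ⟨h4, h⟩
        · rintro (h | ⟨-, h⟩)
          · omega
          · exact Or.inr (Or.inr (Or.inr ⟨by omega, h⟩))
  | full y =>
    rw [inj_nf0]
    have hq : q + 1 - (p.r + 1) = q - p.r := by omega
    have h6 : q - p.r < p.K := by omega
    simp only [memb, hq, Nat.testBit_mod_two_pow, h6, decide_true, Bool.true_and]
    rcases Nat.eq_or_lt_of_le h1 with h4 | h4
    · have h5 : q - p.r = 0 := by omega
      rw [h5, Nat.testBit_zero]
      constructor
      · intro _; exact Or.inr (Or.inr (Or.inl h4.symm))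
      · intro _; exact Or.inr (Or.inr (Or.inr ⟨by omega, by simp⟩))
    · have h5 : q - p.r = q - (p.r + 1) + 1 := by omega
      rw [h5, inj_testBit_double_one]
      constructor
      · rintro (h | h | h | ⟨-, h⟩)
        · omega
        · omega
        · omega
        · exact Or.inr (Or.inr (Or.inr ⟨h4, h⟩))
      · rintro (h | h | h | ⟨-, h⟩)
        · omega
        · omega
        · omega
        · exact Or.inr (Or.inr (Or.inr ⟨by omega, h⟩))

theorem inj_read {p : Par} (m : ℕ) {c : Cfg} (hb : inj_Bd p c) (hm : m ≤ p.K) :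
    acc p c (List.replicate m 0) ↔ memb p c (p.r + p.K - m) := by
  induction m generalizing c with
  | zero => exact Iff.rfl
  | succ m ih =>
    rw [List.replicate_succ, acc_cons, ih (inj_bd_next hb) (by omega)]
    have h : p.r + p.K - m = p.r + p.K - (m + 1) + 1 := by omega
    rw [h]
    exact inj_step0 hb (by omega) (by omega)

theorem inj_readK {p : Par} {c : Cfg} (hb : inj_Bd p c) :
    acc p c (List.replicate (p.K + 1) 0) ↔ memb p (next p c 0) p.r := by
  rw [List.replicate_succ, acc_cons, inj_read p.K (inj_bd_next hb) le_rfl]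
  have : p.r + p.K - p.K = p.r := by omega
  rw [this]

theorem inj_next_grow_mem (p : Par) (y : ℕ) :
    memb p (next p (.grow y) 0) p.r ↔ 2 ^ p.K ≤ y := by
  rw [inj_ng0]
  split_ifs with h
  · simp only [memb]
    constructor
    · rintro (h1 | ⟨h1, -⟩) <;> omega
    · intro h1; omega
  · simp only [memb, true_or, or_true, true_iff]
    omega

theorem inj_next_full_mem (p : Par) (y : ℕ) : memb p (next p (.full y) 0) p.r := by
  rw [inj_nf0]
  simp [memb]

theorem inj_next_path (p : Par) (j : ℕ) (hj : j ≠ p.r + p.K + 1) :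
    next p (.path j) 0 = .path (j + 1) := by
  rw [inj_np0, if_neg hj]

theorem inj_next_top (p : Par) (x : Fin 2) : next p (.path (p.r + p.K + 1)) x = .full 0 := by
  rw [inj_np, if_pos rfl]

theorem inj_pathw (p : Par) (m : ℕ) : ∀ j : ℕ, j + m ≤ p.r + p.K + 1 →
    (List.replicate m (0 : Fin 2)).foldl (next p) (.path j) = .path (j + m) := by
  induction m with
  | zero => intro j _; rfl
  | succ m ih =>
    intro j hj
    rw [List.replicate_succ, List.foldl_cons, inj_next_path p j (by omega), ih (j + 1) (by omega)]
    congr 1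
    omega

theorem inj_growsw (p : Par) (m : ℕ) : ∀ t : ℕ, t + m ≤ p.K →
    (List.replicate m (0 : Fin 2)).foldl (next p) (.grow (2 ^ t)) = .grow (2 ^ (t + m)) := by
  induction m with
  | zero => intro t _; rfl
  | succ m ih =>
    intro t ht
    have h1 : next p (.grow (2 ^ t)) 0 = .grow (2 ^ (t + 1)) := by
      rw [inj_ng0, if_pos (Nat.pow_lt_pow_right (by norm_num) (by omega))]
      congr 1
      rw [pow_succ]
      ring
    rw [List.replicate_succ, List.foldl_cons, h1, ih (t + 1) (by omega)]
    congr 2
    omega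

/-- reading bit zero after `a^(K-1)` -/
theorem inj_read_zero {p : Par} {c : Cfg} (hb : inj_Bd p c) :
    acc p c (List.replicate (p.K - 1) 0) ↔ memb p c (p.r + 1) := by
  have hK := p.hK
  rw [inj_read (p.K - 1) hb (by omega)]
  have : p.r + p.K - (p.K - 1) = p.r + 1 := by omega
  rw [this]

theorem inj_full_mem_zero (p : Par) (y : ℕ) :
    memb p (.full y) (p.r + 1) ↔ y.testBit 0 = true := by
  have hK := p.hK
  simp only [memb, Nat.sub_self]
  constructor
  · rintro (h | h | h | ⟨-, h⟩)
    · omega
    · omega
    · omega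
    · exact h
  · intro h; exact Or.inr (Or.inr (Or.inr ⟨le_rfl, h⟩))

/-- the word `b a^(K-1)` from `full 0` is accepted -/
theorem inj_full_zero_acc (p : Par) : acc p (.full 0) ((1 : Fin 2) :: List.replicate (p.K - 1) 0) := by
  have hK := p.hK
  have hi := p.hi
  rw [acc_cons]
  have hlt : (1 : ℕ) < 2 ^ p.K := Nat.one_lt_two_pow (by omega)
  have hn : next p (.full 0) 1 = .full (1 ||| (if p.i < p.K then 2 ^ p.i else 0)) := by
    rw [inj_nf]
    congr 1
    rw [Nat.mul_zero, Nat.zero_add, Nat.mod_eq_of_lt hlt]
    simp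
  rw [hn, inj_read_zero, inj_full_mem_zero, Nat.testBit_or]
  · simp
  · show _ < 2 ^ p.K
    refine Nat.or_lt_two_pow hlt ?_
    split_ifs with h
    · exact Nat.pow_lt_pow_right (by norm_num) h
    · exact Nat.two_pow_pos _

/-- the word `b a^(K-1)` from `path r` is rejected -/
theorem inj_path_r_rej (p : Par) : ¬ acc p (.path p.r) ((1 : Fin 2) :: List.replicate (p.K - 1) 0) := by
  have hK := p.hK
  have hi := p.hi
  rw [acc_cons, inj_np, if_neg (by omega), if_pos ⟨rfl, rfl⟩]
  split_ifs with h
  · rw [inj_read_zero]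
    · simp only [memb, Nat.sub_self, Nat.testBit_two_pow]
      rintro (h1 | ⟨-, h1⟩)
      · omega
      · simp only [decide_eq_true_eq] at h1
        omega
    · exact Nat.pow_lt_pow_right (by norm_num) (by omega)
  · rw [inj_read_zero]
    · simp only [memb]
      omega
    · exact le_rfl

theorem inj_valid_pos {p : Par} {y : ℕ} (h : VG p y) : 0 < y := by
  rcases h with ⟨t, -, s, hs⟩ | ⟨j, -, hj⟩
  · rcases Nat.eq_zero_or_pos y with h0 | h0
    · rw [h0, Nat.zero_div] at hs
      omega
    · exact h0
  · rw [hj]
    exact Nat.two_pow_pos _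

theorem inj_mod_two_pow_eq_zero {y K : ℕ} (h : ∀ k < K, y.testBit k = false) : y % 2 ^ K = 0 := by
  refine Nat.eq_of_testBit_eq fun k => ?_
  rw [Nat.testBit_mod_two_pow, Nat.zero_testBit]
  by_cases hk : k < K
  · rw [h k hk]; simp
  · simp [hk]

theorem inj_full_full {p : Par} {y y' : ℕ} (hy : y < 2 ^ p.K) (hy' : y' < 2 ^ p.K)
    (h : ∀ w, acc p (.full y) w ↔ acc p (.full y') w) : y = y' := by
  refine Nat.eq_of_testBit_eq fun k => ?_
  by_cases hk : k < p.K
  · have h1 := h (List.replicate (p.K - 1 - k) 0)
    rw [inj_read _ (show inj_Bd p (.full y) from hy) (by omega),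
      inj_read _ (show inj_Bd p (.full y') from hy') (by omega)] at h1
    have e : p.r + p.K - (p.K - 1 - k) = p.r + 1 + k := by omega
    rw [e] at h1
    have h2 : ∀ z : ℕ, memb p (.full z) (p.r + 1 + k) ↔ z.testBit k = true := by
      intro z
      simp only [memb, Nat.add_sub_cancel_left]
      constructor
      · rintro (h | h | h | ⟨-, h⟩)
        · omega
        · omega
        · omega
        · exact h
      · intro h; exact Or.inr (Or.inr (Or.inr ⟨by omega, h⟩))
    rw [h2, h2] at h1
    exact Bool.eq_iff_iff.2 h1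
  · have hle : 2 ^ p.K ≤ 2 ^ k := Nat.pow_le_pow_right (by norm_num) (by omega)
    rw [Nat.testBit_lt_two_pow (hy.trans_le hle), Nat.testBit_lt_two_pow (hy'.trans_le hle)]

theorem inj_grow_mem (p : Par) (y k : ℕ) (hk : k < p.K) :
    memb p (.grow y) (p.r + 1 + k) ↔ y.testBit k = true := by
  simp only [memb, Nat.add_sub_cancel_left]
  constructor
  · rintro (h | ⟨-, h⟩)
    · omega
    · exact h
  · intro h; exact Or.inr ⟨by omega, h⟩

theorem inj_grow_grow {p : Par} {y y' : ℕ} (hy : y < 2 ^ (p.K + 1)) (hy' : y' < 2 ^ (p.K + 1))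
    (h : ∀ w, acc p (.grow y) w ↔ acc p (.grow y') w) : y = y' := by
  refine Nat.eq_of_testBit_eq fun k => ?_
  rcases lt_trichotomy k p.K with hk | hk | hk
  · have h1 := h (List.replicate (p.K - 1 - k) 0)
    rw [inj_read _ (show inj_Bd p (.grow y) from hy) (by omega),
      inj_read _ (show inj_Bd p (.grow y') from hy') (by omega)] at h1
    have e : p.r + p.K - (p.K - 1 - k) = p.r + 1 + k := by omega
    rw [e, inj_grow_mem _ _ _ hk, inj_grow_mem _ _ _ hk] at h1
    exact Bool.eq_iff_iff.2 h1
  · have h1 := h (List.replicate (p.K + 1) 0)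
    rw [inj_readK (show inj_Bd p (.grow y) from hy), inj_readK (show inj_Bd p (.grow y') from hy'),
      inj_next_grow_mem, inj_next_grow_mem] at h1
    have h2 : ∀ z : ℕ, z < 2 ^ (p.K + 1) → (z.testBit p.K = true ↔ 2 ^ p.K ≤ z) := by
      intro z hz
      constructor
      · intro h3
        exact Nat.ge_two_pow_of_testBit h3
      · intro h3
        by_contra hc
        have h4 : z < 2 ^ p.K := by
          refine Nat.lt_pow_two_of_testBit _ fun i hi => ?_
          rcases Nat.eq_or_lt_of_le hi with h5 | h5
          · rw [← h5]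
            simpa using hc
          · exact Nat.testBit_lt_two_pow (hz.trans_le (Nat.pow_le_pow_right (by norm_num) h5))
        omega
    rw [hk]
    exact Bool.eq_iff_iff.2 ((h2 y hy).trans (h1.trans (h2 y' hy').symm))
  · have hle : 2 ^ (p.K + 1) ≤ 2 ^ k := Nat.pow_le_pow_right (by norm_num) (by omega)
    rw [Nat.testBit_lt_two_pow (hy.trans_le hle), Nat.testBit_lt_two_pow (hy'.trans_le hle)]

theorem inj_full_grow {p : Par} {y y' : ℕ} (hy : y < 2 ^ p.K) (hy' : y' < 2 ^ (p.K + 1))
    (h : ∀ w, acc p (.full y) w ↔ acc p (.grow y') w) : False := by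
  have h1 := h (List.replicate p.K 0)
  rw [inj_read _ (show inj_Bd p (.full y) from hy) le_rfl,
    inj_read _ (show inj_Bd p (.grow y') from hy') le_rfl] at h1
  have e : p.r + p.K - p.K = p.r := by omega
  rw [e] at h1
  have h2 : memb p (.full y) p.r := by simp [memb]
  have h3 := h1.1 h2
  simp only [memb] at h3
  rcases h3 with h3 | ⟨h3, -⟩ <;> omega

theorem inj_full_path {p : Par} {y j : ℕ} (hy : y < 2 ^ p.K) (hj : j ≤ p.r + p.K + 1)
    (h : ∀ w, acc p (.full y) w ↔ acc p (.path j) w) : False := by
  have hK := p.hK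
  have h1 := h (List.replicate p.K 0)
  rw [inj_read _ (show inj_Bd p (.full y) from hy) le_rfl,
    inj_read _ (show inj_Bd p (.path j) from hj) le_rfl] at h1
  have e : p.r + p.K - p.K = p.r := by omega
  rw [e] at h1
  have h2 : memb p (.full y) p.r := by simp [memb]
  have h3 : p.r = j := h1.1 h2
  have h4 := h (List.replicate (p.K + 1) 0)
  rw [inj_readK (show inj_Bd p (.full y) from hy), inj_readK (show inj_Bd p (.path j) from hj),
    inj_next_path p j (by omega)] at h4
  have h5 : p.r = j + 1 := h4.1 (inj_next_full_mem p y)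
  omega

theorem inj_path_grow {p : Par} {y j : ℕ} (hj : j ≤ p.r + p.K + 1) (hy : y < 2 ^ (p.K + 1))
    (hpos : 0 < y) (h : ∀ w, acc p (.path j) w ↔ acc p (.grow y) w) : False := by
  have hK := p.hK
  have hbj : inj_Bd p (.path j) := hj
  have hby : inj_Bd p (.grow y) := hy
  -- bits below `K`
  have hbit : ∀ k < p.K, (p.r + 1 + k = j ↔ y.testBit k = true) := by
    intro k hk
    have h1 := h (List.replicate (p.K - 1 - k) 0)
    rw [inj_read _ hbj (by omega), inj_read _ hby (by omega)] at h1
    have e : p.r + p.K - (p.K - 1 - k) = p.r + 1 + k := by omega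
    rw [e, inj_grow_mem _ _ _ hk] at h1
    exact h1
  have hr : j ≠ p.r := by
    intro hjr
    have h1 := h (List.replicate p.K 0)
    rw [inj_read _ hbj le_rfl, inj_read _ hby le_rfl] at h1
    have e : p.r + p.K - p.K = p.r := by omega
    rw [e] at h1
    have h3 := h1.1 hjr.symm
    simp only [memb] at h3
    rcases h3 with h3 | ⟨h3, -⟩ <;> omega
  have hK1 := h (List.replicate (p.K + 1) 0)
  rw [inj_readK hbj, inj_readK hby, inj_next_grow_mem] at hK1
  rcases lt_or_gt_of_ne hr with hlt | hgt
  · -- `j < r`
    have hmod : y % 2 ^ p.K = 0 := by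
      refine inj_mod_two_pow_eq_zero fun k hk => ?_
      have := hbit k hk
      by_contra hc
      have h2 := this.2 (by simpa using hc)
      omega
    have hyK : y = 2 ^ p.K := by
      obtain ⟨d, hd⟩ := Nat.dvd_of_mod_eq_zero hmod
      rw [pow_succ] at hy
      have hd1 : d < 2 := by
        by_contra hc
        have : 2 ^ p.K * 2 ≤ 2 ^ p.K * d := Nat.mul_le_mul_left _ (by omega)
        omega
      have hd2 : 0 < d := by
        rcases Nat.eq_zero_or_pos d with h0 | h0
        · rw [h0, Nat.mul_zero] at hd
          omega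
        · exact h0
      have : d = 1 := by omega
      rw [hd, this, Nat.mul_one]
    rw [inj_next_path p j (by omega)] at hK1
    have hj1 : p.r = j + 1 := hK1.2 hyK.ge
    -- the word a b a^(K-1)
    have h2 := h ((0 : Fin 2) :: (1 : Fin 2) :: List.replicate (p.K - 1) 0)
    rw [acc_cons, acc_cons p (.grow y), inj_next_path p j (by omega), ← hj1] at h2
    have h3 : next p (.grow y) 0 = .full 0 := by
      rw [inj_ng0, if_neg (by omega)]
      congr 1
      rw [hyK]
      simp
    rw [h3] at h2
    exact inj_path_r_rej p (h2.2 (inj_full_zero_acc p))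
  · -- `j = r + 1 + t`
    obtain ⟨t, ht⟩ : ∃ t, j = p.r + 1 + t := ⟨j - (p.r + 1), by omega⟩
    have htK : t ≤ p.K := by omega
    have hyt : y = 2 ^ t := by
      rcases Nat.eq_or_lt_of_le htK with h1 | h1
      · -- t = K
        have hmod : y % 2 ^ p.K = 0 := by
          refine inj_mod_two_pow_eq_zero fun k hk => ?_
          have := hbit k hk
          by_contra hc
          have h2 := this.2 (by simpa using hc)
          omega
        obtain ⟨d, hd⟩ := Nat.dvd_of_mod_eq_zero hmod
        rw [pow_succ] at hy
        have hd1 : d < 2 := by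
          by_contra hc
          have : 2 ^ p.K * 2 ≤ 2 ^ p.K * d := Nat.mul_le_mul_left _ (by omega)
          omega
        have hd2 : 0 < d := by
          rcases Nat.eq_zero_or_pos d with h0 | h0
          · rw [h0, Nat.mul_zero] at hd
            omega
          · exact h0
        have : d = 1 := by omega
        rw [hd, this, Nat.mul_one, h1]
      · -- t < K
        have hylt : y < 2 ^ p.K := by
          by_contra hc
          have h2 := hK1.2 (not_lt.1 hc)
          rw [inj_next_path p j (by omega)] at h2
          have : p.r = j + 1 := h2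
          omega
        refine Nat.eq_of_testBit_eq fun k => ?_
        rw [Nat.testBit_two_pow]
        by_cases hk : k < p.K
        · have h2 := hbit k hk
          rw [Bool.eq_iff_iff, ← h2, decide_eq_true_eq]
          omega
        · rw [Nat.testBit_lt_two_pow (hylt.trans_le (Nat.pow_le_pow_right (by norm_num) (by omega)))]
          symm
          rw [decide_eq_false_iff_not]
          omega
    have h2 := h (List.replicate (p.K - t) 0 ++ (1 : Fin 2) :: List.replicate (p.K - 1) 0)
    rw [acc_append, acc_append, inj_pathw p _ _ (by omega), hyt, inj_growsw p _ _ (by omega),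
      acc_cons, acc_cons p (.grow _)] at h2
    have e1 : j + (p.K - t) = p.r + p.K + 1 := by omega
    have e2 : t + (p.K - t) = p.K := by omega
    rw [e1, e2, inj_next_top] at h2
    have hlt : (1 : ℕ) < 2 ^ p.K := Nat.one_lt_two_pow (by omega)
    have h3 : next p (.grow (2 ^ p.K)) 1 = .full 1 := by
      rw [inj_ng, if_neg (lt_irrefl _)]
      congr 1
      have : 2 * 2 ^ p.K + ((1 : Fin 2) : ℕ) = 1 + 2 ^ p.K * 2 := by
        simp only [Fin.val_one]
        ring
      rw [this, Nat.add_mul_mod_self_left, Nat.mod_eq_of_lt hlt]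
    rw [h3, inj_read_zero (show inj_Bd p (.full 0) from Nat.two_pow_pos _),
      inj_read_zero (show inj_Bd p (.full 1) from hlt), inj_full_mem_zero, inj_full_mem_zero] at h2
    simp at h2

theorem inj_path_path {p : Par} {j j' : ℕ} (hlt : j < j') (hj' : j' ≤ p.r + p.K + 1)
    (h : ∀ w, acc p (.path j) w ↔ acc p (.path j') w) : False := by
  have hK := p.hK
  have hbj : inj_Bd p (.path j) := by show j ≤ _; omega
  have hbj' : inj_Bd p (.path j') := hj'
  by_cases h1 : j' ≤ p.r + p.K
  · have h2 := h (List.replicate (p.r + p.K - j') 0)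
    unfold acc at h2
    rw [inj_pathw p _ _ (by omega), inj_pathw p _ _ (by omega)] at h2
    have h3 : p.r + p.K = j + (p.r + p.K - j') := h2.2 (by show _ = _; omega)
    omega
  · have h1' : j' = p.r + p.K + 1 := by omega
    subst h1'
    by_cases h2 : p.r ≤ j
    · have h3 := h (List.replicate (p.r + p.K - j) 0)
      rw [inj_read _ hbj (by omega), inj_read _ hbj' (by omega)] at h3
      have h4 : p.r + p.K - (p.r + p.K - j) = p.r + p.K + 1 := h3.1 (by show _ = _; omega)
      omega
    · have h3 := h (List.replicate (p.K + 1) 0)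
      rw [inj_readK hbj, inj_readK hbj', inj_next_path p j (by omega), inj_next_top] at h3
      have h4 : p.r = j + 1 := h3.2 (by simp [memb])
      have h5 := h ((0 : Fin 2) :: (1 : Fin 2) :: List.replicate (p.K - 1) 0)
      rw [acc_cons, acc_cons p (.path (p.r + p.K + 1)), inj_next_path p j (by omega), ← h4,
        inj_next_top] at h5
      exact inj_path_r_rej p (h5.2 (inj_full_zero_acc p))

theorem acc_inj (p : Par) (c c' : Cfg) (hc : Valid p c) (hc' : Valid p c')
    (h : ∀ w : List (Fin 2), acc p c w ↔ acc p c' w) : c = c' := by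
  have h' : ∀ w : List (Fin 2), acc p c' w ↔ acc p c w := fun w => (h w).symm
  cases c with
  | path j =>
    cases c' with
    | path j' =>
      rcases lt_trichotomy j j' with h1 | h1 | h1
      · exact (inj_path_path h1 hc' h).elim
      · rw [h1]
      · exact (inj_path_path h1 hc h').elim
    | grow y => exact (inj_path_grow hc hc'.1 (inj_valid_pos hc'.2) h).elim
    | full y => exact (inj_full_path hc'.1 hc h').elim
  | grow y =>
    cases c' with
    | path j' => exact (inj_path_grow hc' hc.1 (inj_valid_pos hc.2) h').elim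
    | grow y' => rw [inj_grow_grow hc.1 hc'.1 h]
    | full y' => exact (inj_full_grow hc'.1 hc.1 h').elim
  | full y =>
    cases c' with
    | path j' => exact (inj_full_path hc.1 hc' h).elim
    | grow y' => exact (inj_full_grow hc.1 hc'.1 h).elim
    | full y' => rw [inj_full_full hc.1 hc'.1 h]

end Pool.H4.Magic
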