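import Mathlib

/-!
# NUM: the two numeration lemmas

Lemma N0: every `g ≤ 2^(m+1) - 2` is `∑_{j ∈ S} (2^j - 1) + F` with `S ⊆ [1,m]`, `F ≤ m`, `[1,F-1] ⊆ S`, and `m ∈ S` if `m ≥ 1` and `g ≥ 2^m - 1`.
Induction on `m`.  `m = 0`: `g = 0`, `S = ∅`, `F = 0`.  Step to `m+1` (`g ≤ 2^(m+2) - 2`): if `g = 2^(m+2) - 2`, take `S = [1,m+1]`, `F = m+1`
(`∑_{j=1}^{m+1} (2^j - 1) + m + 1 = 2^(m+2) - 2`).  If `2^(m+1) - 1 ≤ g < 2^(m+2) - 2`, then `g - (2^(m+1) - 1) ≤ 2^(m+1) - 2`: use the induction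
hypothesis and add `m+1` to `S`.  If `g ≤ 2^(m+1) - 2`, use the induction hypothesis (`F ≤ m ≤ m+1`).
Lemma N1: every `g ≤ 3·2^m - 2` is `∑_{j ∈ S} (3·2^(j-1) - 1) + F` with `S ⊆ [1,m]`, `F ≤ m+1`, `[1,F-1] ⊆ S`, and `m ∈ S` if `m ≥ 1` and
`g ≥ 3·2^(m-1) - 1`.  `m = 0`: `g ≤ 1`, `S = ∅`, `F = g`.  Step to `m+1` (`g ≤ 3·2^(m+1) - 2`): `g = 3·2^(m+1) - 2`: `S = [1,m+1]`, `F = m+2`;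
`3·2^m - 1 ≤ g < 3·2^(m+1) - 2`: `g - (3·2^m - 1) ≤ 3·2^m - 2`, induction and add `m+1`; `g ≤ 3·2^m - 2`: induction.
-/

set_option autoImplicit false

namespace Pool.H4.Magic

theorem num0 (m g : ℕ) (hg : g + 2 ≤ 2 ^ (m + 1)) :
    ∃ (S : Finset ℕ) (F : ℕ), (∀ j ∈ S, 1 ≤ j ∧ j ≤ m) ∧ F ≤ m ∧ (∀ j, 1 ≤ j → j < F → j ∈ S) ∧
      (1 ≤ m → 2 ^ m ≤ g + 1 → m ∈ S) ∧ g = (∑ j ∈ S, (2 ^ j - 1)) + F := by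
  sorry

theorem num1 (m g : ℕ) (hg : g + 2 ≤ 3 * 2 ^ m) :
    ∃ (S : Finset ℕ) (F : ℕ), (∀ j ∈ S, 1 ≤ j ∧ j ≤ m) ∧ F ≤ m + 1 ∧ (∀ j, 1 ≤ j → j < F → j ∈ S) ∧
      (1 ≤ m → 3 * 2 ^ (m - 1) ≤ g + 1 → m ∈ S) ∧ g = (∑ j ∈ S, (3 * 2 ^ (j - 1) - 1)) + F := by
  sorry

end Pool.H4.Magic
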