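import Pool.Agent.H4.Magic.Defs

/-!
# REACH: all valid configurations are reachable (if `0 ∈ P` or `1 ∈ P`)

* `path j` (`j ≤ r+K+1`): `a^j`.
* `grow (2^j)`, `i ≤ j ≤ K`: `path r -b-> grow (2^i)` (as `i ≤ K`), then `a^(j-i)`.
* `grow y`, `y < 2^(K+1)`, `y / 2^s = 2^(t+1)+1`, `t ∈ P`: induction on `s`: `s = 0` from `path (r+1+t)` by `b` (note `r+1+t ≠ r` and `< r+K+1`);
  `s+1`: `y = 2*(y/2) + y % 2` from `grow (y/2)` (which is `< 2^K`) by the letter `y % 2`.
* `full y`, `0 ∈ P`: from `grow (2^K + 2^(K-1) + y/2)` (valid: `t = 0`, `s = K-1`) by the letter `y % 2`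
  (`2*(2^K + 2^(K-1) + y/2) + y%2 = 2^(K+1) + 2^K + y`, mod `2^K` it is `y`).
* `full y`, `1 ∈ P` (so `K ≥ 2`): `y = 0` from `path (r+K+1)`. `y = 2^(K-t) + 2v`, `v < 2^(K-1-t)`: from `grow (2^K + 2^(K-1-t) + v)` by `a`
  (gap type with this `t ∈ P` and `s = K-1-t`). `y` odd: `y1 := 2^(K-1) + y/2 < 2^K` is reached from
  `grow (2^K + 2^(K-2) + y/4)` (gap type `t = 1`, `s = K-2`) by the letter `(y/2) % 2`, and `full y1 -a-> full ((2*y1+1) % 2^K) = full y`.
-/

set_option autoImplicit false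

namespace Pool.H4.Magic

/-- reachable configurations -/
def Rch (p : Par) (c : Cfg) : Prop := ∃ u : List (Fin 2), u.foldl (next p) (Cfg.path 0) = c

theorem Rch.next {p : Par} {c : Cfg} (h : Rch p c) (x : Fin 2) : Rch p (next p c x) := by
  obtain ⟨u, hu⟩ := h
  exact ⟨u ++ [x], by rw [List.foldl_append, hu]; rfl⟩

theorem Rch.of_next {p : Par} {c c' : Cfg} (h : Rch p c) (x : Fin 2)
    (hc : Pool.H4.Magic.next p c x = c') : Rch p c' := hc ▸ h.next x

/-- a letter from a number -/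
def reachLtr (m : ℕ) : Fin 2 := ⟨m % 2, Nat.mod_lt _ (by norm_num)⟩

theorem reachLtr_val (m : ℕ) : (reachLtr m).val = m % 2 := rfl

theorem reach_path (p : Par) (j : ℕ) (hj : j ≤ p.r + p.K + 1) : Rch p (.path j) := by
  induction j with
  | zero => exact ⟨[], rfl⟩
  | succ j ih =>
    refine (ih (by omega)).of_next 0 ?_
    have h1 : j ≠ p.r + p.K + 1 := by omega
    simp [next, h1]

theorem reach_next_lt (p : Par) {y : ℕ} (x : Fin 2) (h : y < 2 ^ p.K) :
    next p (.grow y) x = .grow (2 * y + x.val) := by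
  simp [next, h]

theorem reach_next_ge (p : Par) {y : ℕ} (x : Fin 2) (h : 2 ^ p.K ≤ y) :
    next p (.grow y) x = .full ((2 * y + x.val) % 2 ^ p.K) := by
  have : ¬ y < 2 ^ p.K := by omega
  simp [next, this]

theorem reach_pow (p : Par) (j : ℕ) (hj : p.i ≤ j) (hK : j ≤ p.K) : Rch p (.grow (2 ^ j)) := by
  obtain ⟨m, rfl⟩ := Nat.exists_eq_add_of_le hj
  clear hj
  induction m with
  | zero =>
    have h0 := reach_path p p.r (by omega)
    refine h0.of_next 1 ?_
    have h1 : p.r ≠ p.r + p.K + 1 := by omega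
    have h2 : p.i ≤ p.K := by omega
    simp [next, h1, h2]
  | succ m ih =>
    have h0 := ih (by omega)
    refine h0.of_next 0 ?_
    rw [reach_next_lt]
    · congr 1
      change 2 * 2 ^ (p.i + m) + 0 = _
      rw [← add_assoc, pow_succ]
      ring
    · exact Nat.pow_lt_pow_right (by norm_num) (by omega)

theorem reach_gap (p : Par) (t : ℕ) (ht : t ∈ p.P) (s : ℕ) : ∀ y : ℕ, y < 2 ^ (p.K + 1) →
    y / 2 ^ s = 2 ^ (t + 1) + 1 → Rch p (.grow y) := by
  have htK := p.hP t ht
  induction s with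
  | zero =>
    intro y hy h
    rw [pow_zero, Nat.div_one] at h
    subst h
    have h0 := reach_path p (p.r + 1 + t) (by omega)
    refine h0.of_next 1 ?_
    have h1 : p.r + 1 + t ≠ p.r + p.K + 1 := by omega
    have h2 : p.r + 1 + t ≠ p.r := by omega
    have h3 : p.r + 1 + t - (p.r + 1) = t := by omega
    simp only [next, if_neg h1, h2, and_false, if_false, h3, true_and, ht, and_true]
    rw [if_pos (by omega)]
  | succ s ih =>
    intro y hy h
    have hy2 : y / 2 < 2 ^ p.K := by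
      rw [pow_succ] at hy
      omega
    have h0 := ih (y / 2) (by rw [pow_succ]; omega) (by
      rw [Nat.div_div_eq_div_mul, ← h, pow_succ, mul_comm])
    refine h0.of_next (reachLtr y) ?_
    rw [reach_next_lt _ _ hy2, reachLtr_val]
    congr 1
    omega

theorem reach_full_of_gap (p : Par) (t : ℕ) (ht : t ∈ p.P) (v : ℕ) (hv : v < 2 ^ (p.K - 1 - t))
    (x : Fin 2) : Rch p (.full ((2 ^ (p.K - t) + 2 * v + x.val) % 2 ^ p.K)) := by
  have htK := p.hP t ht
  obtain ⟨s, hs⟩ : ∃ s, p.K = t + 1 + s := ⟨p.K - 1 - t, by omega⟩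
  have e1 : p.K - 1 - t = s := by omega
  have e2 : p.K - t = s + 1 := by omega
  rw [e1] at hv
  have h0 := reach_gap p t ht s (2 ^ p.K + 2 ^ s + v) (by
    rw [pow_succ]
    have : 2 ^ (s + 1) ≤ 2 ^ p.K := Nat.pow_le_pow_right (by norm_num) (by omega)
    rw [pow_succ] at this
    omega) (by
    have : 2 ^ p.K + 2 ^ s + v = v + 2 ^ s * (2 ^ (t + 1) + 1) := by
      rw [hs, pow_add]; ring
    rw [this, Nat.add_mul_div_left _ _ (by positivity), Nat.div_eq_of_lt hv, zero_add])
  refine h0.of_next x ?_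
  rw [reach_next_ge _ _ (by omega)]
  congr 1
  have : 2 * (2 ^ p.K + 2 ^ s + v) + x.val = (2 ^ (p.K - t) + 2 * v + x.val) + 2 ^ p.K * 2 := by
    rw [e2, pow_succ]; ring
  rw [this, Nat.add_mul_mod_self_left]

theorem reach (p : Par) (h01 : 0 ∈ p.P ∨ 1 ∈ p.P) (c : Cfg) (hc : Valid p c) :
    ∃ u : List (Fin 2), u.foldl (next p) (Cfg.path 0) = c := by
  change Rch p c
  cases c with
  | path j => exact reach_path p j hc
  | grow y =>
    obtain ⟨hy, h | ⟨j, hj, rfl⟩⟩ := hc
    · obtain ⟨t, ht, s, hs⟩ := h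
      exact reach_gap p t ht s y hy hs
    · refine reach_pow p j hj ?_
      have := (Nat.pow_lt_pow_iff_right (by norm_num : 1 < 2)).1 hy
      omega
  | full y =>
    obtain ⟨hy, hw⟩ := hc
    have hK := p.hK
    obtain ⟨k, hk⟩ : ∃ k, p.K = k + 1 := ⟨p.K - 1, by omega⟩
    by_cases h0 : 0 ∈ p.P
    · have h1 := reach_full_of_gap p 0 h0 (y / 2) (by
        have : p.K - 1 - 0 = k := by omega
        rw [this]
        rw [hk, pow_succ] at hy
        omega) (reachLtr y)
      rw [reachLtr_val] at h1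
      have h2 : (2 ^ (p.K - 0) + 2 * (y / 2) + y % 2) % 2 ^ p.K = y := by
        have : 2 ^ (p.K - 0) + 2 * (y / 2) + y % 2 = y + 2 ^ p.K := by
          rw [Nat.sub_zero]; omega
        rw [this, Nat.add_mod_right, Nat.mod_eq_of_lt hy]
      rwa [h2] at h1
    · have h1 : 1 ∈ p.P := h01.resolve_left h0
      have hK2 := p.hP 1 h1
      obtain ⟨m, rfl⟩ : ∃ m, k = m + 1 := ⟨k - 1, by omega⟩
      rcases hw with hw | hw | hw | ⟨t, ht, v, hv, hw⟩
      · exact absurd hw h0
      · -- `y` odd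
        have h2 := reach_full_of_gap p 1 h1 (y / 4) (by
          have : p.K - 1 - 1 = m := by omega
          rw [this]
          rw [hk, pow_succ, pow_succ] at hy
          omega) (reachLtr (y / 2))
        rw [reachLtr_val] at h2
        have e3 : (2 ^ (p.K - 1) + 2 * (y / 4) + y / 2 % 2) % 2 ^ p.K = 2 ^ (m + 1) + y / 2 := by
          have e4 : p.K - 1 = m + 1 := by omega
          rw [e4]
          have e5 : 2 ^ (m + 1) + 2 * (y / 4) + y / 2 % 2 = 2 ^ (m + 1) + y / 2 := by omega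
          rw [e5]
          apply Nat.mod_eq_of_lt
          rw [hk, pow_succ] at hy ⊢
          omega
        rw [e3] at h2
        refine h2.of_next 0 ?_
        have h3 : ¬ ((0 : Fin 2) = 1 ∧ p.i < p.K) := by simp
        simp only [next, if_neg h3, Nat.or_zero]
        congr 1
        have e6 : 2 * (2 ^ (m + 1) + y / 2) + 1 = y + 2 ^ p.K := by
          rw [hk, pow_succ (2 : ℕ) (m + 1)]; omega
        rw [e6, Nat.add_mod_right, Nat.mod_eq_of_lt hy]
      · subst hw
        refine (reach_path p (p.r + p.K + 1) le_rfl).of_next 0 ?_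
        simp [next]
      · have h2 := reach_full_of_gap p t ht v hv 0
        have h3 : (2 ^ (p.K - t) + 2 * v + (0 : Fin 2).val) % 2 ^ p.K = y := by
          change (2 ^ (p.K - t) + 2 * v + 0) % 2 ^ p.K = y
          rw [add_zero, ← hw, Nat.mod_eq_of_lt hy]
        rwa [h3] at h2

end Pool.H4.Magic
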