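import Pool.Agent.H4.Magic.Defs

/-!
# STEP: the configurations describe the subset automaton

For a valid configuration `c`, the image of `sem p c` under the letter `x` is `sem p (next p c x)`.
Proof: `NFA.stepSet` is `⋃ q ∈ S, step q x`; so `q' ∈ stepSet (sem p c) x ↔ ∃ q : Fin _, memb p c q ∧ tr p q x q'`.
Case analysis on `c` (and on the position of `q'`: `q' = r+K+2`, `q' = r+K+1`, `q' = r`, `q' = r+1`, other).
Write `M = r+K+1`, `z = r+K+2`, `bit k` = state `r+1+k` (`k ≤ K`; bit `K` = state `M`).
* `path j`: one state, direct from the definition of `tr`.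
* `grow y`, `y < 2^K` (bit `K` is `0`, so `M ∉ S`): each register state `r+1+k` with `k < K` goes to `r+2+k` (and,
  under `b`, possibly also to `r+1`, `z`, which are present anyway because `z → {z, r+1}` under `b`); `z → z` (and `r+1` under `b`).
  Result `{z} ∪ bits of 2y + x`.
* `grow y`, `2^K ≤ y < 2^(K+1)`: in addition `M ∈ S` gives `M, r, z`: result `full ((2y+x) % 2^K)`.
* `full y`, `y < 2^K`: `M → {M, r, z}`; under `a`: `r → r+1` (bit 0), `z → z`, bits shift: the register is
  `(2y+1) % 2^K`, `M` is present anyway. Under `b`: `z → {z, r+1}`, `r → {z, r+1+i}` (`i ≤ K`) or `{M}` (`i = K+1`).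
Useful: `Nat.testBit_succ`, `Nat.testBit_mod_two_pow`, `Nat.testBit_or`, `Nat.testBit_two_pow`, `Nat.testBit_lt_two_pow`.
-/

set_option autoImplicit false

namespace Pool.H4.Magic

theorem stepSet_sem (p : Par) (c : Cfg) (hc : Valid p c) (x : Fin 2) :
    (aut p).stepSet (sem p c) x = sem p (next p c x) := by
  sorry

end Pool.H4.Magic
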