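import Pool.Agent.H4.Magic.Fool
import Pool.Agent.H4.Magic.Gen

/-!
# TRIV: `α = n` and `α = n + 1`

`Good n α` is the property of the problem.  `α = n` (`n ≥ 1`): the cyclic automaton `q -x-> {q+1 mod n}` (both letters), start and accept `{0}`:
`L = {w : n ∣ |w|}`; `n` residuals (`|u| mod n`); an NFA with `m < n` states accepting `L`: fooling set `(a^j, a^(n-j))`, `j < n`.
`α = n + 1` (`n ≥ 1`): the path `0 → 1 → ⋯ → n-1 → ∅` (both letters), start `{0}`, accept `{n-1}`: `L = {w : |w| = n-1}`; `n+1` residuals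
(`|u| = 0, …, n-1` and `|u| ≥ n`: the empty residual); fooling set `(a^j, a^(n-1-j))`, `j < n`.
The fooling set lemma is `fooling` in `Fool.lean`, the counting lemma `card_residuals` in `Gen.lean` (with `C = ℕ`, `sem j = {q | q.val = j}`,
`V = range n` or `range (n+1)`) may be used.
-/

set_option autoImplicit false

namespace Pool.H4.Magic

/-- `α` is attained by a minimal `n`-state NFA over a binary alphabet. -/
def Good (n α : ℕ) : Prop :=
  ∃ M : NFA (Fin 2) (Fin n), (∃ q, M.start = {q}) ∧
    (∀ m : ℕ, m < n → ∀ N : NFA (Fin 2) (Fin m), (∃ q : Fin m, N.start = {q}) → N.accepts ≠ M.accepts) ∧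
    Nat.card (Set.range (fun u : List (Fin 2) =>
      ({w : List (Fin 2) | u ++ w ∈ M.accepts} : Set (List (Fin 2))))) = α

theorem good_self (n : ℕ) (hn : 1 ≤ n) : Good n n := by
  sorry

theorem good_succ (n : ℕ) (hn : 1 ≤ n) : Good n (n + 1) := by
  sorry

end Pool.H4.Magic
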