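import Pool.Agent.H4.Magic.Gen
import Pool.Agent.H4.Magic.Fool
import Pool.Agent.H4.Magic.Step
import Pool.Agent.H4.Magic.Closed
import Pool.Agent.H4.Magic.Reach
import Pool.Agent.H4.Magic.Inj
import Pool.Agent.H4.Magic.FoolA
import Pool.Agent.H4.Magic.CountG
import Pool.Agent.H4.Magic.CountW
import Pool.Agent.H4.Magic.Num
import Pool.Agent.H4.Magic.Triv

/-!
# Assembly
-/

set_option autoImplicit false

namespace Pool.H4.Magic

open Classical in
theorem card_V (p : Par) :
    (V p).card = (p.r + p.K + 2) +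
      (((Finset.range (2 ^ (p.K + 1))).filter (fun y => VG p y)).card
        + ((Finset.range (2 ^ p.K)).filter (fun y => VW p y)).card) := by
  unfold V
  rw [Finset.card_union_of_disjoint, Finset.card_union_of_disjoint, Finset.card_image_of_injective,
    Finset.card_image_of_injective, Finset.card_image_of_injective, Finset.card_range]
  · intro a b h; injection h
  · intro a b h; injection h
  · intro a b h; injection h
  · rw [Finset.disjoint_left]
    intro c h1 h2
    rw [Finset.mem_image] at h1 h2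
    obtain ⟨a, _, rfl⟩ := h1
    obtain ⟨b, _, hb⟩ := h2
    cases hb
  · rw [Finset.disjoint_left]
    intro c h1 h2
    rw [Finset.mem_union, Finset.mem_image, Finset.mem_image] at h2
    rw [Finset.mem_image] at h1
    obtain ⟨a, _, rfl⟩ := h1
    rcases h2 with ⟨b, _, hb⟩ | ⟨b, _, hb⟩ <;> cases hb

theorem exists_accept_iff (p : Par) (c : Cfg) :
    (∃ q ∈ (aut p).accept, q ∈ sem p c) ↔ memb p c (p.r + p.K) := by
  constructor
  · rintro ⟨q, hq, hq'⟩
    have h1 : q.val = p.r + p.K := hq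
    have h2 : memb p c q.val := hq'
    rwa [h1] at h2
  · intro h
    exact ⟨⟨p.r + p.K, by omega⟩, rfl, h⟩

theorem good_par (p : Par) (h01 : 0 ∈ p.P ∨ 1 ∈ p.P) : Good (p.r + p.K + 3) (V p).card := by
  have hstart : (aut p).start = sem p (Cfg.path 0) := by
    ext q
    simp only [aut, sem, memb]
    constructor
    · intro h
      have h' : q = 0 := h
      subst h'
      rfl
    · intro h
      have h' : q.val = 0 := h
      exact Fin.ext h'
  have hc0 : Cfg.path 0 ∈ V p := by
    rw [mem_V]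
    exact Nat.zero_le _
  have hstep : ∀ c ∈ V p, ∀ x, (aut p).stepSet (sem p c) x = sem p (next p c x) :=
    fun c hc x => stepSet_sem p c ((mem_V p c).1 hc) x
  have hcl : ∀ c ∈ V p, ∀ x, next p c x ∈ V p :=
    fun c hc x => (mem_V p _).2 (valid_next p c ((mem_V p c).1 hc) x)
  have hacc : ∀ w, w ∈ (aut p).accepts ↔ acc p (Cfg.path 0) w := by
    intro w
    rw [accepts_iff (aut p) (sem p) (next p) (Cfg.path 0) (V p) hstart hc0 hstep hcl w,
      exists_accept_iff]
    rfl
  refine ⟨aut p, ⟨0, rfl⟩, ?_, ?_⟩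
  · intro m hm N _ hN
    have key := fooling (fx p) (fy p) N (fun i => by
      rw [hN, hacc]; exact foolA_diag p i) (fun i j hij => by
      rw [hN, hacc, hacc]; exact foolA_off p i j hij)
    omega
  · refine card_residuals (aut p) (sem p) (next p) (Cfg.path 0) (V p) hstart hc0 hstep hcl
      (fun c hc => reach p h01 c ((mem_V p c).1 hc)) ?_
    intro c hc c' hc' h
    refine acc_inj p c c' ((mem_V p c).1 hc) ((mem_V p c').1 hc') (fun w => ?_)
    have := h w
    rw [exists_accept_iff, exists_accept_iff] at this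
    exact this

/-- Parameters from a set `S` of gap complements and a number `F` of powers of two. -/
def mkPar (r K : ℕ) (S : Finset ℕ) (F : ℕ) (hK : 1 ≤ K) (hF : F ≤ K)
    (hS1 : ∀ j, 1 ≤ j → j < F → j ∈ S) : Par where
  r := r
  K := K
  P := (Finset.range K).filter (fun t => K - t ∈ S)
  i := K + 1 - F
  hK := hK
  hP := by
    intro t ht
    rw [Finset.mem_filter, Finset.mem_range] at ht
    exact ht.1
  hi := by omega
  hiK := by omega
  hPi := by
    intro t h1 h2
    rw [Finset.mem_filter, Finset.mem_range]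
    exact ⟨h2, hS1 _ (by omega) (by omega)⟩

theorem sum_P (K : ℕ) (S : Finset ℕ) (hS : ∀ j ∈ S, 1 ≤ j ∧ j ≤ K) (f : ℕ → ℕ) :
    ∑ t ∈ (Finset.range K).filter (fun t => K - t ∈ S), f (K - t) = ∑ j ∈ S, f j := by
  refine Finset.sum_nbij' (fun t => K - t) (fun j => K - j) ?_ ?_ ?_ ?_ ?_
  · intro t ht
    rw [Finset.mem_filter] at ht
    exact ht.2
  · intro j hj
    rw [Finset.mem_filter, Finset.mem_range]
    have := hS j hj
    refine ⟨by omega, ?_⟩
    have h2 : K - (K - j) = j := by omega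
    rw [h2]; exact hj
  · intro t ht
    rw [Finset.mem_filter, Finset.mem_range] at ht
    show K - (K - t) = t
    omega
  · intro j hj
    have := hS j hj
    show K - (K - j) = j
    omega
  · intro t _
    rfl

/-- Case 0: `α = r + K + 2 + 2^K + g` with `2^K - 1 ≤ g ≤ 2^(K+1) - 2`. -/
theorem good_case0 (r K g : ℕ) (hK : 1 ≤ K) (hg1 : 2 ^ K ≤ g + 1) (hg2 : g + 2 ≤ 2 ^ (K + 1)) :
    Good (r + K + 3) (r + K + 2 + 2 ^ K + g) := by
  classical
  obtain ⟨S, F, hS, hF, hS1, hm, hsum⟩ := num0 K g hg2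
  have hKS := hm hK hg1
  have h0 : 0 ∈ (mkPar r K S F hK hF hS1).P := by
    show 0 ∈ (Finset.range K).filter (fun t => K - t ∈ S)
    rw [Finset.mem_filter, Finset.mem_range]
    exact ⟨hK, hKS⟩
  have := good_par (mkPar r K S F hK hF hS1) (Or.inl h0)
  rw [card_V, countG, countW0 _ h0] at this
  have e : (mkPar r K S F hK hF hS1).K + 1 - (mkPar r K S F hK hF hS1).i = F := by
    show K + 1 - (K + 1 - F) = F
    omega
  rw [e] at this
  have e2 : ∑ t ∈ (mkPar r K S F hK hF hS1).P, (2 ^ ((mkPar r K S F hK hF hS1).K - t) - 1)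
      = ∑ j ∈ S, (2 ^ j - 1) := sum_P K S hS (fun j => 2 ^ j - 1)
  rw [e2] at this
  have e3 : r + K + 2 + 2 ^ K + g = r + K + 2 + (F + ∑ j ∈ S, (2 ^ j - 1) + 2 ^ K) := by omega
  rw [e3]
  exact this

/-- Case 1: `α = r + K + 3 + 2^(K-1) + g` with `3·2^(K-2) - 1 ≤ g ≤ 3·2^(K-1) - 2`. -/
theorem good_case1 (r K g : ℕ) (hK : 2 ≤ K) (hg1 : 3 * 2 ^ (K - 2) ≤ g + 1)
    (hg2 : g + 2 ≤ 3 * 2 ^ (K - 1)) :
    Good (r + K + 3) (r + K + 3 + 2 ^ (K - 1) + g) := by
  classical
  obtain ⟨S, F, hS, hF, hS1, hm, hsum⟩ := num1 (K - 1) g hg2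
  have hKS := hm (by omega) (by
    have : K - 1 - 1 = K - 2 := by omega
    rw [this]; exact hg1)
  have hK' : 1 ≤ K := by omega
  have hF' : F ≤ K := by omega
  have h1 : 1 ∈ (mkPar r K S F hK' hF' hS1).P := by
    show 1 ∈ (Finset.range K).filter (fun t => K - t ∈ S)
    rw [Finset.mem_filter, Finset.mem_range]
    exact ⟨by omega, hKS⟩
  have h0 : 0 ∉ (mkPar r K S F hK' hF' hS1).P := by
    show 0 ∉ (Finset.range K).filter (fun t => K - t ∈ S)
    rw [Finset.mem_filter]
    rintro ⟨_, h⟩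
    have := hS _ h
    omega
  have := good_par (mkPar r K S F hK' hF' hS1) (Or.inr h1)
  rw [card_V, countG, countW1 _ h0] at this
  have e : (mkPar r K S F hK' hF' hS1).K + 1 - (mkPar r K S F hK' hF' hS1).i = F := by
    show K + 1 - (K + 1 - F) = F
    omega
  rw [e] at this
  have hS' : ∀ j ∈ S, 1 ≤ j ∧ j ≤ K := fun j hj => by
    have := hS j hj
    omega
  have e2 : ∑ t ∈ (mkPar r K S F hK' hF' hS1).P, (2 ^ ((mkPar r K S F hK' hF' hS1).K - t) - 1)
      = ∑ j ∈ S, (2 ^ j - 1) := sum_P K S hS' (fun j => 2 ^ j - 1)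
  have e4 : ∑ t ∈ (mkPar r K S F hK' hF' hS1).P, 2 ^ ((mkPar r K S F hK' hF' hS1).K - 1 - t)
      = ∑ j ∈ S, 2 ^ (j - 1) := by
    rw [← sum_P K S hS' (fun j => 2 ^ (j - 1))]
    refine Finset.sum_congr rfl (fun t _ => ?_)
    show 2 ^ (K - 1 - t) = 2 ^ (K - t - 1)
    congr 1
    omega
  rw [e2, e4] at this
  have e5 : ∑ j ∈ S, (3 * 2 ^ (j - 1) - 1) = ∑ j ∈ S, (2 ^ j - 1) + ∑ j ∈ S, 2 ^ (j - 1) := by
    rw [← Finset.sum_add_distrib]
    refine Finset.sum_congr rfl (fun j hj => ?_)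
    have hj1 := (hS j hj).1
    obtain ⟨j', rfl⟩ : ∃ j', j = j' + 1 := ⟨j - 1, by omega⟩
    have : 1 ≤ 2 ^ j' := Nat.one_le_two_pow
    rw [Nat.add_sub_cancel, pow_succ]
    omega
  rw [e5] at hsum
  have e3 : r + K + 3 + 2 ^ (K - 1) + g
      = r + K + 2 + (F + ∑ j ∈ S, (2 ^ j - 1) + (2 ^ (K - 1) + 1 + ∑ j ∈ S, 2 ^ (j - 1))) := by
    omega
  rw [e3]
  exact this

theorem good_main (n α : ℕ) (hn : 3 ≤ n) (h1 : n ≤ α) (h2 : α ≤ 3 * 2 ^ (n - 3) + (n - 3)) :
    Good n α := by
  rcases Nat.lt_or_ge α (n + 2) with hα | hα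
  · rcases Nat.lt_or_ge α (n + 1) with h | h
    · have : α = n := by omega
      subst this
      exact good_self _ (by omega)
    · have : α = n + 1 := by omega
      subst this
      exact good_succ _ (by omega)
  · -- `β = α - (n - 2) ≥ 4`
    obtain ⟨β, hβ⟩ : ∃ β, α = (n - 2) + β := ⟨α - (n - 2), by omega⟩
    have hβ4 : 4 ≤ β := by omega
    have hβ2 : β + 1 ≤ 3 * 2 ^ (n - 3) := by omega
    have hlog : 2 ≤ Nat.log 2 β := by
      have := Nat.le_log_of_pow_le (b := 2) (x := 2) (y := β) (by norm_num) (by omega)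
      exact this
    obtain ⟨K, hK⟩ : ∃ K, Nat.log 2 β = K + 1 := ⟨Nat.log 2 β - 1, by omega⟩
    have hK1 : 1 ≤ K := by omega
    have hlow : 2 ^ (K + 1) ≤ β := by
      rw [← hK]
      exact Nat.pow_log_le_self 2 (by omega)
    have hupp : β < 2 ^ (K + 2) := by
      have := Nat.lt_pow_succ_log_self (b := 2) (by norm_num) β
      rwa [hK] at this
    have hKn : K + 3 ≤ n := by
      by_contra hcon
      have h3 : n - 3 + 1 ≤ K + 1 - 1 := by omega
      have h4 : 2 ^ (n - 3 + 1) ≤ 2 ^ K := Nat.pow_le_pow_right (by norm_num) (by omega)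
      rw [pow_succ] at h4 hlow
      omega
    rcases Nat.lt_or_ge β (3 * 2 ^ K) with hb | hb
    · -- case 0
      have e : n = (n - 3 - K) + K + 3 := by omega
      have key := good_case0 (n - 3 - K) K (β - 1 - 2 ^ K) hK1 (by
        rw [pow_succ] at hlow
        omega) (by
        rw [pow_succ]
        omega)
      have e2 : (n - 3 - K) + K + 2 + 2 ^ K + (β - 1 - 2 ^ K) = α := by
        rw [pow_succ] at hlow
        omega
      rw [e2, ← e] at key
      exact key
    · -- case 1 with `K + 1`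
      have hKn' : K + 4 ≤ n := by
        by_contra hcon
        have h3 : n - 3 = K := by omega
        rw [h3] at hβ2
        omega
      have e : n = (n - 3 - (K + 1)) + (K + 1) + 3 := by omega
      have e0 : K + 1 - 2 = K - 1 := by omega
      have e1 : K + 1 - 1 = K := by omega
      have e3 : 2 ^ K = 2 * 2 ^ (K - 1) := by
        obtain ⟨k, rfl⟩ : ∃ k, K = k + 1 := ⟨K - 1, by omega⟩
        rw [Nat.add_sub_cancel, pow_succ]
        ring
      have key := good_case1 (n - 3 - (K + 1)) (K + 1) (β - 2 - 2 ^ K) (by omega) (by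
        rw [e0]
        omega) (by
        rw [e1]
        have : 2 ^ (K + 2) = 4 * 2 ^ K := by rw [pow_add]; ring
        omega)
      have e2 : (n - 3 - (K + 1)) + (K + 1) + 3 + 2 ^ (K + 1 - 1) + (β - 2 - 2 ^ K) = α := by
        rw [e1]
        omega
      rw [e2, ← e] at key
      exact key

end Pool.H4.Magic
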